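import Mathlib
import Pool.Agent.H.MP_2e4b78_lc.A

set_option autoImplicit false

namespace Pool.Agent.H.MP_bbbdfa_lc

open Set Filter Function Cardinal Order Pool.Agent.H.MP_77d395_lc
open Pool.Agent.H.MP_6e75db_lc (o bd)
open Pool.Agent.H.MP_2e4b78_lc (cc)

open Classical in
theorem rc {α β : Type} [LinearOrder α] [WellFoundedLT α] (d : β) {P : α → (α → β) → β → Prop}
    (h : ∀ a g, ∃ x, P a g x) : ∃ f : α → β, ∀ a, P a (fun b => if b < a then f b else d) (f a) := by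
  choose y hy using h
  let f : α → β := wellFounded_lt.fix fun a ih => y a fun b => if h : b < a then ih b h else d
  exact ⟨f, fun a => (show f a = y a fun b => if b < a then f b else d from
    wellFounded_lt.fix_eq _ a).symm ▸ hy a _⟩

theorem mn {α : Type} [LinearOrder α] [WellFoundedLT α] (d : α) : ∃ m : Set α → α, ∀ S : Set α,
    S.Nonempty → m S ∈ S ∧ ∀ x ∈ S, m S ≤ x := by
  have : Nonempty α := ⟨d⟩
  choose! m m1 m2 using fun S : Set α => wellFounded_lt.has_min S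
  exact ⟨m, fun S n => ⟨m1 S n, fun x p => not_lt.1 (m2 S n x p)⟩⟩

abbrev T (κ : Cardinal.{0}) := (succ κ).ord.ToType

theorem mT (κ : Cardinal.{0}) : #(T κ) = succ κ := by simp

theorem cT {κ : Cardinal.{0}} (h : ℵ₀ ≤ κ) (a : T κ) : #(Iic a) ≤ κ :=
  lt_succ_iff.1 ((mk_Iic_lt a (by simp) ((h.trans (le_succ κ)).trans (mT κ).ge)).trans_eq (mT κ))

theorem bs {κ : Cardinal.{0}} (h : ℵ₀ ≤ κ) {ι : Type} (c : #ι ≤ κ) (f : ι → T κ) :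
    ∃ b, ∀ i, f i < b := by
  by_contra! n
  refine (show #(⋃ i, Iic (f i)) < #(T κ) from ((mk_iUnion_le _).trans (mul_le_of_le h c
    (ciSup_le' fun t => cT h _))).trans_lt (mT κ ▸ lt_succ κ)).ne ?_
  rw [eq_univ_of_forall fun b => let ⟨a, l⟩ := n b; mem_iUnion.2 ⟨a, mem_Iic.2 l⟩, mk_univ]

/-- two functions with the same least strict upper bound are interleaved -/
theorem il {α ι : Type} [LinearOrder α] [WellFoundedLT α] [Nonempty α] : ∃ w : α → ι → α,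
    ∀ h : ι → α, (∃ b, ∀ i, h i < b) → ∃ x, (∀ i, ∃ j, h i ≤ w x j) ∧ ∀ i, ∃ j, w x i ≤ h j := by
  obtain ⟨m, hm⟩ := mn (Classical.arbitrary α)
  choose! w w1 w2 using fun x (p : ∃ h : ι → α, (∃ b, ∀ i, h i < b) ∧ m {b | ∀ i, h i < b} = x) => p
  have : ∀ g h : ι → α, (∃ b, ∀ i, g i < b) → (∃ b, ∀ i, h i < b) → m {b | ∀ i, g i < b} =
      m {b | ∀ i, h i < b} → ∀ i, ∃ j, g i ≤ h j := fun g h a b e i => by_contra fun c =>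
    ((hm _ b).2 (g i) fun j => not_le.1 fun d => c ⟨j, d⟩).not_gt (e ▸ (hm _ a).1 i)
  exact ⟨w, fun h b => ⟨_, this _ _ b (w1 _ ⟨h, b, rfl⟩) (w2 _ ⟨h, b, rfl⟩).symm,
    this _ _ (w1 _ ⟨h, b, rfl⟩) b (w2 _ ⟨h, b, rfl⟩)⟩⟩

abbrev W := T (succ ℵ₁)

theorem a1 : ℵ₀ ≤ (ℵ₁ : Cardinal.{0}) := aleph0_le_aleph 1

theorem a2 : ℵ₀ ≤ succ (ℵ₁ : Cardinal.{0}) := a1.trans (le_succ _)

theorem bI {f : I → W} : ∃ b, ∀ i, f i < b := bs a2 (mkI.le.trans (le_succ _)) f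

instance (κ : Cardinal.{0}) : Nonempty (T κ) := mk_ne_zero_iff.1 (mT κ ▸ succ_ne_zero κ)

/-- club guessing -/
theorem cg : ∃ C : W → I → W, ∀ p : W → W, ∃ δ, ∀ ξ, (∀ ζ < C δ ξ, p ζ < C δ ξ) ∧
    ∃ ζ < C δ ξ, ∀ η < ξ, C δ η ≤ ζ := by
  classical
  obtain ⟨d⟩ : Nonempty W := inferInstance
  obtain ⟨c, hc⟩ := il (α := W) (ι := I)
  obtain ⟨m, hm⟩ := mn d
  let M : Set W → W → W := fun E x => m {u | ∀ ε ∈ E, ε ≤ x → ε ≤ u}
  have m1 := fun (E : Set W) x => hm {u | ∀ ε ∈ E, ε ≤ x → ε ≤ u} ⟨x, fun _ _ => id⟩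
  choose! C hC using fun (E : Set W) δ (p : ∃ C : I → W, ∀ ξ, (∃ η, M E (c δ η) = C ξ) ∧
    ∃ ζ < C ξ, ∀ η < ξ, C η ≤ ζ) => p
  by_contra n
  choose q hq using fun E => not_forall.1 (not_exists.1 n (C E))
  obtain ⟨P, hP⟩ := rc (α := T ℵ₁) (fun _ => d) (P := fun i g x =>
    x = q {ε | ∀ j < i, ∀ ζ < ε, g j ζ < ε}) fun _ _ => ⟨_, rfl⟩
  let E : T ℵ₁ → Set W := fun i => {ε | ∀ j < i, ∀ ζ < ε, P j ζ < ε}
  replace hP : ∀ i, P i = q (E i) := fun i => (hP i).trans (congrArg q (by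
    simp +contextual [E, Set.ext_iff]))
  choose p hp using fun ζ => bs a2 (mT _).le fun i => P i ζ
  obtain ⟨a, ha⟩ := rc d (P := fun (_ : I) g x => (∀ η, g η < x) ∧ ∀ i, x ∈ E i) fun ξ g => by
    obtain ⟨b, h⟩ := bI (f := g)
    obtain ⟨x, ⟨x1, x2⟩, -⟩ := (cc (bs a2 (by simp [a2])) (fun γ => {p γ}) (fun a => (bs a2
      (cT a2 a) fun γ : Iic a => p γ).imp fun _ h γ l _ e => e ▸ h ⟨γ, l⟩) b).isCofinal b
    exact ⟨x, fun η => (h η).trans x1, fun i j _ ζ l => (hp ζ j).trans (x2 ζ l _ rfl)⟩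
  have am : StrictMono a := fun η ξ l => by simpa [l] using (ha ξ).1 η
  obtain ⟨δ, d1, d2⟩ := hc a bI
  choose i hi using fun η => mem_range.1 (hm (range fun i => M (E i) (c δ η)) (range_nonempty _)).1
  obtain ⟨k, hk⟩ := bs a1 mkI.le i
  obtain ⟨l, hl⟩ := bs a1 mkI.le fun _ => k
  have e : ∀ η j, i η < j → M (E j) (c δ η) = M (E (i η)) (c δ η) := fun η j g => le_antisymm
    ((m1 _ _).2 _ fun ε u => (m1 _ _).1 ε fun j' l => u j' (l.trans g))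
    ((hi η).trans_le ((hm _ (range_nonempty _)).2 _ ⟨j, rfl⟩))
  obtain ⟨f, hf⟩ := rc d (P := fun (ξ : I) g u => (∃ η, M (E k) (c δ η) = u) ∧ ((∀ η < ξ, ∃ θ,
      g η ≤ a θ) → ∃ ζ < u, ∀ η < ξ, g η ≤ ζ)) fun ξ g => by
    choose! θ hθ using fun η (p : ∃ θ, g η ≤ a θ) => p
    obtain ⟨x, hx⟩ := bd (((cI ξ).mono Iio_subset_Iic_self).image θ)
    obtain ⟨y, hy⟩ := bd (countable_singleton x)
    obtain ⟨η, h⟩ := d1 y
    exact ⟨_, ⟨η, rfl⟩, fun u => ⟨a x, (am (hy x rfl)).trans_le ((m1 _ _).1 _ ((ha y).2 k) h),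
      fun η l => (hθ η (u η l)).trans (am (hx _ ⟨η, l, rfl⟩)).le⟩⟩
  replace hC := hC (E k) δ ⟨f, fun ξ => ⟨(hf ξ).1, by
    simpa +contextual using (hf ξ).2 fun η l => let ⟨θ, e⟩ := (hf η).1; (d2 θ).imp fun _ g =>
      (if_pos l).trans_le (e.ge.trans (((m1 _ _).2 _ fun _ _ => id).trans g))⟩⟩
  refine hq (E k) ⟨δ, fun ξ => ⟨fun ζ g => ?_, (hC ξ).2⟩⟩
  obtain ⟨η, u⟩ := (hC ξ).1
  rw [← u, e η k (hk η), ← e η l ((hk η).trans (hl o))] at g ⊢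
  by_contra v
  refine ((m1 _ _).2 ζ fun ε s t => not_lt.1 fun r => v ?_).not_gt g
  exact (hP k ▸ s k (hl o) ζ r).trans_le ((m1 _ _).1 ε s t)

def Cf (κ : Cardinal.{0}) : Prop := ∀ α : Type, #α ≤ κ → ∃ 𝒞 : Set (Set α), #𝒞 ≤ κ ∧
  (∀ C ∈ 𝒞, C.Countable) ∧ ∀ A : Set α, A.Countable → ∃ C ∈ 𝒞, A ⊆ C

theorem cs {κ : Cardinal.{0}} (h : ℵ₀ ≤ κ) (c : Cf κ) : Cf (succ κ) := fun α l => by
  obtain ⟨j⟩ := (le_def α (T κ)).1 (mT κ ▸ l)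
  choose 𝒞 c1 c2 c3 using fun t => c (j ⁻¹' Iic t) ((mk_preimage_of_injective _ _ j.injective).trans
    (cT h t))
  refine ⟨⋃ t, image Subtype.val '' 𝒞 t, (mk_iUnion_le _).trans (mul_le_of_le (h.trans (le_succ κ))
    (mT κ).le (ciSup_le' fun t => mk_image_le.trans ((c1 t).trans (le_succ κ)))), ?_, fun A a => ?_⟩
  · rintro _ ⟨_, ⟨t, rfl⟩, C, p, rfl⟩
    exact (c2 t C p).image _
  obtain ⟨t, g⟩ := bs h ((le_aleph0_iff_set_countable.2 a).trans h) fun x : A => j x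
  obtain ⟨C, p, q⟩ := c3 t _ (a.preimage Subtype.val_injective)
  exact ⟨_, mem_iUnion.2 ⟨t, C, p, rfl⟩, fun x r => ⟨⟨x, mem_Iic.2 (g ⟨x, r⟩).le⟩, q r, rfl⟩⟩

theorem c0 : Cf ℵ₀ := fun α l => ⟨{Set.univ}, by simp, fun _ e => e ▸ countable_univ_iff.2
  (mk_le_aleph0_iff.1 l), fun _ _ => ⟨_, rfl, subset_univ _⟩⟩

theorem c3 {κ : Cardinal.{0}} (h : ℵ₀ ≤ κ) (l : κ ≤ succ (succ ℵ₁)) : Cf κ := by
  have c1 : Cf ℵ₁ := succ_aleph0 ▸ cs le_rfl c0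
  rcases le_succ_iff_eq_or_le.1 l with rfl | l
  · exact cs a2 (cs a1 c1)
  rcases le_succ_iff_eq_or_le.1 l with rfl | l
  · exact cs a1 c1
  rcases le_succ_iff_eq_or_le.1 (succ_aleph0 ▸ l) with e | l
  exacts [e ▸ cs le_rfl c0, le_antisymm h l ▸ c0]

open Classical in
theorem ap {K : Type} [LinearOrder K] [WellFoundedLT K] (h0 : ℵ₀ ≤ #K)
    (hb : ∀ {ι : Type}, #ι < #K → ∀ f : ι → K, ∃ b, ∀ i, f i < b) : ∃ (E : Type) (C : E → Set E)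
      (α : E → K), #E ≤ #K ∧ (∀ p, (C p).Countable) ∧ ∀ F : Set E → K, ∃ p : I → E, ∀ ξ,
        F (C (p ξ)) ≤ α (p ξ) ∧ ∀ η < ξ, p η ∈ C (p ξ) := by
  obtain ⟨d⟩ : Nonempty K := mk_ne_zero_iff.1 (aleph0_pos.trans_le h0).ne'
  rcases le_or_gt #K (succ (succ ℵ₁)) with l | l
  · obtain ⟨𝒞, c1, c2, c3⟩ := c3 h0 l K le_rfl
    have e : #(𝒞 × K) ≤ #K := by simpa using mul_le_of_le h0 c1 le_rfl
    obtain ⟨j⟩ := (le_def _ _).1 e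
    refine ⟨𝒞 × K, fun p => j ⁻¹' p.1, Prod.snd, e, fun p => (c2 _ p.1.2).preimage j.injective,
      fun F => ?_⟩
    obtain ⟨C, c, -⟩ := c3 ∅ countable_empty
    obtain ⟨p, hp⟩ := rc (⟨⟨C, c⟩, d⟩ : 𝒞 × K) (P := fun (ξ : I) g x => F (j ⁻¹' x.1) ≤ x.2 ∧
      ∀ η < ξ, j (g η) ∈ x.1.1) fun ξ g => let ⟨C, c, h⟩ := c3 _ (((cI ξ).image g).image j)
        ⟨(⟨C, c⟩, F (j ⁻¹' C)), le_rfl, fun η l => h ⟨_, ⟨η, l.le, rfl⟩, rfl⟩⟩
    exact ⟨p, fun ξ => ⟨(hp ξ).1, fun η l => by simpa [l] using (hp ξ).2 η l⟩⟩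
  have : Nonempty K := ⟨d⟩
  obtain ⟨C, hC⟩ := cg
  obtain ⟨w, hw⟩ := il (α := K) (ι := W)
  obtain ⟨m, hm⟩ := mn d
  have bW := hb ((mT _).trans_lt l)
  let L : (W → K) → W → K := fun h ε => m {x | ∀ ζ < ε, h ζ < x}
  have m1 := fun h ε => hm {x | ∀ ζ < ε, h ζ < x} ((bW h).imp fun _ h ζ _ => h ζ)
  let r : (I → K) → I → I × (I → K) := fun s ξ => (ξ, fun η => if η ≤ ξ then s η else d)
  let E := range fun p : (K × W) × I => r (L (w p.1.1) ∘ C p.1.2) p.2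
  let S : (I → K) → I → Set E := fun s ξ => {q | ∃ η < ξ, r s η = q}
  have e : ∀ s t ξ, (∀ η < ξ, s η = t η) → S s ξ = S t ξ := fun s t ξ h => ext fun q =>
    exists_congr fun η => and_congr_right fun g => by
      rw [show r s η = r t η from congrArg _ (funext fun θ => if_ctx_congr .rfl
        (fun c => h θ (c.trans_lt g)) fun _ => rfl)]
  refine ⟨E, fun p => S p.1.2 p.1.1, fun p => p.1.2 p.1.1, mk_range_le.trans ?_, fun p =>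
    (((cI p.1.1).image (r p.1.2)).preimage Subtype.val_injective).mono fun q ⟨η, a, b⟩ =>
      Exists.intro η ⟨a.le, b⟩, fun F => ?_⟩
  · simpa using mul_le_of_le h0 (mul_le_of_le h0 le_rfl l.le) (((le_succ _).trans
      (le_succ _)).trans l.le)
  obtain ⟨h, hh⟩ := rc d (P := fun (_ : W) g x => ∀ p : W × I, F (S (L g ∘ C p.1) p.2) < x) fun _ _ =>
    hb (lt_of_le_of_lt (by simp) l) _
  obtain ⟨x, x1, x2⟩ := hw h (bW h)
  choose p hp using x1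
  choose q hq using x2
  obtain ⟨δ, hδ⟩ := hC fun ζ => max (p ζ) (q ζ)
  have u : ∀ ξ, L (w x) (C δ ξ) = L h (C δ ξ) := fun ξ => congrArg m (ext fun y => ⟨fun a ζ g =>
    (hp ζ).trans_lt (a _ (max_lt_iff.1 ((hδ ξ).1 ζ g)).1), fun a ζ g =>
      (hq ζ).trans_lt (a _ (max_lt_iff.1 ((hδ ξ).1 ζ g)).2)⟩)
  refine ⟨fun ξ => ⟨_, ((x, δ), ξ), rfl⟩, fun ξ => ⟨?_, fun η g => ⟨η, g, congrArg _ (funext fun θ =>
    if_ctx_congr .rfl (fun c => if_pos (c.trans g.le)) fun _ => rfl)⟩⟩⟩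
  obtain ⟨ζ, z1, z2⟩ := (hδ ξ).2
  refine ((congrArg F (e _ _ ξ fun η g => (if_pos g.le).trans ((u η).trans (congrArg m (ext fun y =>
    forall₂_congr fun θ c => ?_))))).trans_lt ((hh ζ (δ, ξ)).trans ((m1 h _).1 ζ z1))).le.trans
      ((if_pos le_rfl).trans (u ξ)).ge
  simp only [if_pos (c.trans_le (z2 η g))]

/-- the bounding number -/
noncomputable def bb : Cardinal.{0} :=
  sInf {c | ∃ B : Set (ℕ → ℕ), (¬ ∃ g : ℕ → ℕ, ∀ f ∈ B, ∀ᶠ n in atTop, f n ≤ g n) ∧ #B = c}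

/-- the dominating number -/
noncomputable def dd : Cardinal.{0} :=
  sInf {c | ∃ D : Set (ℕ → ℕ), (∀ f : ℕ → ℕ, ∃ g ∈ D, ∀ᶠ n in atTop, f n ≤ g n) ∧ #D = c}

/-- the star of a set with respect to a family -/
def St {X : Type} (A : Set X) (𝒰 : Set (Set X)) : Set X := ⋃₀ {U ∈ 𝒰 | (U ∩ A).Nonempty}

/-- strongly star-Hurewicz spaces -/
def SSH (X : Type) [TopologicalSpace X] : Prop :=
  ∀ 𝒰 : ℕ → Set (Set X), (∀ n, (∀ U ∈ 𝒰 n, IsOpen U) ∧ ⋃₀ 𝒰 n = Set.univ) →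
    ∃ F : ℕ → Set X, (∀ n, (F n).Finite) ∧ ∀ x, ∀ᶠ n in atTop, x ∈ St (F n) (𝒰 n)

/-- strongly star-Menger spaces -/
def SSM (X : Type) [TopologicalSpace X] : Prop :=
  ∀ 𝒰 : ℕ → Set (Set X), (∀ n, (∀ U ∈ 𝒰 n, IsOpen U) ∧ ⋃₀ 𝒰 n = Set.univ) →
    ∃ F : ℕ → Set X, (∀ n, (F n).Finite) ∧ ⋃ n, St (F n) (𝒰 n) = Set.univ

theorem ub {B : Set (ℕ → ℕ)} (h : #B < bb) : ∃ g : ℕ → ℕ, ∀ f ∈ B, ∀ᶠ n in atTop, f n ≤ g n :=
  by_contra fun c => h.not_ge (csInf_le' ⟨B, c, rfl⟩)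

theorem nu {g : ℕ → ℕ} (h : ∀ᶠ n in atTop, g n + 1 ≤ g n) : False :=
  let ⟨_, c⟩ := h.exists; (Nat.lt_irrefl _ c).elim

theorem b0 : ∃ B : Set (ℕ → ℕ), (¬ ∃ g : ℕ → ℕ, ∀ f ∈ B, ∀ᶠ n in atTop, f n ≤ g n) ∧ #B = bb :=
  csInf_mem (s := {c | ∃ B : Set (ℕ → ℕ), (¬ ∃ g : ℕ → ℕ, ∀ f ∈ B, ∀ᶠ n in atTop, f n ≤ g n) ∧
    #B = c}) ⟨_, Set.univ, fun ⟨g, h⟩ =>
    nu (h (fun n => g n + 1) trivial), rfl⟩

theorem b1 : ℵ₀ < bb := by
  obtain ⟨B, h, e⟩ := b0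
  refine e ▸ not_le.1 fun c => h ?_
  obtain ⟨f, hf⟩ := ((le_aleph0_iff_set_countable.1 c).insert 0).exists_eq_range (insert_nonempty _ _)
  refine ⟨fun n => (Finset.range (n + 1)).sup (f · n), fun g p => ?_⟩
  obtain ⟨k, rfl⟩ := hf.le (.inr p)
  exact (eventually_ge_atTop k).mono fun n l => Finset.le_sup (f := (f · n))
    (Finset.mem_range.2 (Nat.lt_succ_of_le l))

open Classical Topology in
theorem core {X : Type} [TopologicalSpace X] [T3Space X] {D : Set X} (c : IsClosed D)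
    (d : DiscreteTopology D) {B : Set (ℕ → ℕ)} (e : #B = bb) (u : ¬ ∃ g : ℕ → ℕ, ∀ f ∈ B,
      ∀ᶠ n in atTop, f n ≤ g n) (Φ : (ℕ → Prop) → Prop) (hΦ : ∀ g : ℕ → ℕ, ∃ f ∈ B, ∀ y : ℕ → ℕ,
        (∀ᶠ n in atTop, f n ≤ y n) → ∀ A, Φ A → ∃ n, A n ∧ g n ≤ y n) (hX : ∀ 𝒰 : ℕ → Set (Set X),
          (∀ n, (∀ U ∈ 𝒰 n, IsOpen U) ∧ ⋃₀ 𝒰 n = Set.univ) → ∃ F : ℕ → Set X, (∀ n, (F n).Finite) ∧
            ∀ x, Φ fun n => x ∈ St (F n) (𝒰 n)) : #D < bb := by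
  have k : #(bb.ord.ToType) = bb := by simp
  obtain ⟨b⟩ := Cardinal.eq.1 (k.trans e.symm)
  choose y hy using fun a : bb.ord.ToType => ub (B := (fun a => (b a).1) '' Iic a) (mk_image_le.trans_lt
    ((mk_Iic_lt a (by simp) (b1.le.trans k.ge)).trans_eq k))
  have hb : ∀ {ι : Type}, #ι < #(bb.ord.ToType) → ∀ f : ι → bb.ord.ToType, ∃ b, ∀ i, f i < b :=
    fun l f => by_contra fun n => u ((ub (B := range (y ∘ f)) (mk_range_le.trans_lt (k ▸ l))).imp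
      fun g h x p => let ⟨i, q⟩ := not_forall.1 (not_exists.1 n (b.symm ⟨x, p⟩))
        ((hy (f i) x ⟨_, not_lt.1 q, by simp⟩).and (h _ ⟨i, rfl⟩)).mono fun _ c => c.1.trans c.2)
  obtain ⟨E, C, α, e1, e2, e3⟩ := ap (b1.le.trans k.ge) hb
  by_contra l
  obtain ⟨j⟩ := (le_def E D).1 (e1.trans (k.trans_le (not_lt.1 l)))
  have : ∀ p, ∃ N ∈ 𝓝 (j p).1, IsClosed N ∧ ∀ q, (j q).1 ∈ N → q = p := fun p => by
    obtain ⟨V, v1, v2⟩ := isOpen_induced_iff.1 (isOpen_discrete {j p})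
    obtain ⟨N, a, b, c⟩ := exists_mem_nhds_isClosed_subset (v1.mem_nhds (v2.ge rfl))
    exact ⟨N, a, b, fun q r => j.injective (v2.le (c r))⟩
  choose N n1 n2 n3 using this
  choose! i hi using fun (S : Set E) (h : S.Countable) => countable_iff_exists_injOn.1 h
  let G : ℕ → E → Set E := fun n p => {q ∈ C p | i (C p) q ≤ y (α p) n ∧ q ≠ p}
  have g1 : ∀ n p, (G n p).Finite := fun n p => .of_finite_image (f := i (C p)) ((finite_Iic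
    (y (α p) n)).subset (image_subset_iff.2 fun _ q => q.2.1)) ((hi _ (e2 p)).mono fun _ q => q.1)
  obtain ⟨F, f1, f2⟩ := hX (fun n => insert (range fun p => (j p).1)ᶜ (range fun p => interior (N p) \
    ⋃ q ∈ G n p, N q)) fun n => ⟨forall_mem_insert.2 ⟨(isClosed_of_subset_discrete_closed
      (range_subset_iff.2 fun p => (j p).2) ⟨d⟩ c).isOpen_compl, forall_mem_range.2 fun p =>
        isOpen_interior.sdiff ((g1 n p).isClosed_biUnion fun q _ => n2 q)⟩, eq_univ_of_forall fun x =>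
    (Classical.em _).elim (fun ⟨p, e⟩ => ⟨_, .inr ⟨p, rfl⟩, e ▸ ⟨mem_interior_iff_mem_nhds.2 (n1 p),
      fun c => let ⟨q, a, b⟩ := mem_iUnion₂.1 c; a.2.2 (n3 q p b).symm⟩⟩) fun h => ⟨_, .inl rfl, h⟩⟩
  have : ∀ (S : Set E) n, ∃ g, ∀ x ∈ F n, (∃ q ∈ S, x ∈ N q) → ∃ q ∈ S, x ∈ N q ∧ i S q ≤ g :=
    fun S n => by
    have : Nonempty E := let ⟨p, _⟩ := e3 fun _ => b.symm ⟨_, (hΦ 0).choose_spec.1⟩; ⟨p o⟩
    choose! q q1 q2 using fun x (h : ∃ q ∈ S, x ∈ N q) => h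
    exact ((f1 n).image fun x => i S (q x)).bddAbove.imp fun g h x p r =>
      ⟨_, q1 x r, q2 x r, h ⟨x, p, rfl⟩⟩
  choose g hg using this
  choose f f3 f4 using fun S => hΦ (g S)
  have : ∀ S : Set E, ∃ a, b.symm ⟨_, f3 S⟩ ≤ a ∧ (S.Countable → ∀ q ∈ S, α q < a) := fun S => by
    by_cases h : S.Countable
    · obtain ⟨a, h⟩ := hb (((le_aleph0_iff_set_countable.2 h).trans_lt b1).trans_eq k.symm)
        fun q : S => α q
      exact ⟨_, le_max_left _ a, fun _ q r => lt_max_of_lt_right (h ⟨q, r⟩)⟩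
    exact ⟨_, le_rfl, fun c => (h c).elim⟩
  choose A a1 a2 using this
  obtain ⟨p, hp⟩ := e3 A
  have : ∀ ξ, ∃ x ∈ ⋃ n, F n, x ∈ N (p ξ) ∧ ∀ q ∈ C (p ξ), x ∉ N q := fun ξ => by
    obtain ⟨n, ⟨_, ⟨rfl | ⟨q, rfl⟩, x, r, s⟩, t⟩, v⟩ := f4 (C (p ξ)) _ (hy (α (p ξ)) _ ⟨_, (a1 _).trans
      (hp ξ).1, by simp⟩) _ (f2 (j (p ξ)))
    · exact (t ⟨_, rfl⟩).elim
    obtain rfl := n3 q _ (interior_subset t.1)
    refine ⟨x, mem_iUnion.2 ⟨n, s⟩, interior_subset r.1, fun q a b => ?_⟩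
    obtain ⟨q, a, b, c⟩ := hg _ n x s ⟨q, a, b⟩
    exact r.2 (mem_biUnion ⟨a, c.trans v, fun e => ((a2 _ (e2 _) q a).trans_le (hp ξ).1).ne
      (congrArg α e)⟩ b)
  choose x x1 x2 x3 using this
  obtain ⟨a, h⟩ := unc ((countable_iUnion fun n => (f1 n).countable).preimage (f := x)
    (Function.Injective.of_lt_imp_ne fun η ξ l e => x3 ξ _ ((hp ξ).2 η l) (e ▸ x2 η)))
  exact h (x1 a)

theorem hur {X : Type} [TopologicalSpace X] [T3Space X] (h : SSH X) {D : Set X} (c : IsClosed D)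
    (d : DiscreteTopology D) : #D < bb := by
  obtain ⟨B, u, e⟩ := b0
  refine core c d e u (fun A => ∀ᶠ n in atTop, A n) (fun g => ?_) h
  obtain ⟨f, p, q⟩ : ∃ f ∈ B, ∃ᶠ n in atTop, ¬ f n ≤ g n := by
    simpa only [not_forall, exists_prop, not_eventually] using not_exists.1 u g
  exact ⟨f, p, fun y a A b => ((q.and_eventually (a.and b)).exists).imp fun n r =>
    ⟨r.2.2, (not_le.1 r.1).le.trans r.2.1⟩⟩

theorem men (e : bb = dd) {X : Type} [TopologicalSpace X] [T3Space X] (h : SSM X) {D : Set X}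
    (c : IsClosed D) (d : DiscreteTopology D) : #D < dd := by
  obtain ⟨B, u, b⟩ : ∃ D : Set (ℕ → ℕ), (∀ f : ℕ → ℕ, ∃ g ∈ D, ∀ᶠ n in atTop, f n ≤ g n) ∧ #D = dd :=
    csInf_mem (s := {c | ∃ D : Set (ℕ → ℕ), (∀ f : ℕ → ℕ, ∃ g ∈ D, ∀ᶠ n in atTop, f n ≤ g n) ∧
      #D = c}) ⟨_, Set.univ, fun f =>
      ⟨f, trivial, .of_forall fun _ => le_rfl⟩, rfl⟩
  refine e ▸ core c d (b.trans e.symm) (fun ⟨g, p⟩ => let ⟨f, q, r⟩ := u fun n => g n + 1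
    nu ((r.and (p f q)).mono fun _ c => c.1.trans c.2)) (fun A => ∃ᶠ n in atTop, A n)
    (fun g => (u g).imp fun f p => ⟨p.1, fun y a A b => ((b.and_eventually (p.2.and a)).exists).imp
      fun n r => ⟨r.1, r.2.1.trans r.2.2⟩⟩) fun 𝒰 p => ?_
  choose F f1 f2 using fun m => h (fun n => 𝒰 (n + m)) fun n => p _
  refine ⟨fun n => ⋃ m ∈ Iic n, F m (n - m), fun n => (finite_Iic n).biUnion fun m _ => f1 m _,
    fun x => frequently_atTop.2 fun m => ?_⟩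
  obtain ⟨n, U, ⟨a, y, b, c⟩, d⟩ := mem_iUnion.1 ((f2 m).ge (mem_univ x))
  exact ⟨n + m, m.le_add_left n, U, ⟨a, y, b, mem_biUnion (m.le_add_left n) (by simpa)⟩, d⟩

end Pool.Agent.H.MP_bbbdfa_lc
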